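import Pool.Agent.Helper54.SRD.Basic

/-! `nm B` is a norm equivalent to the given one, with Cauchy-Schwarz. -/

set_option autoImplicit false

open Set Filter MeasureTheory
open scoped Manifold ContDiff Topology

namespace Pool.Agent.Helper27.SRD

open Pool.Agent.Helper54.SRD

variable {E : Type*} [NormedAddCommGroup E] [NormedSpace ℝ E]

lemma nonneg_of_pd {B : Bil E} (hB : IsPD B) (u : E) : 0 ≤ B u u := by
  by_cases h : u = 0
  · simp [h]
  · exact (hB.2 u h).le

lemma cs {B : Bil E} (hB : IsPD B) (u v : E) : (B u v) ^ 2 ≤ B u u * B v v := by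
  by_cases hv : v = 0
  · simp [hv]
  have hpos := hB.2 v hv
  have h := nonneg_of_pd hB (B v v • u - B u v • v)
  have e : B (B v v • u - B u v • v) (B v v • u - B u v • v)
      = B v v * (B v v * B u u - (B u v) ^ 2) := by
    simp only [map_sub, map_smul, sub_apply, smul_apply,
      smul_eq_mul]
    rw [hB.1 v u]
    ring
  rw [e] at h
  have h2 := nonneg_of_mul_nonneg_right h hpos
  linarith

lemma nm_sq {B : Bil E} (hB : IsPD B) (u : E) : nm B u ^ 2 = B u u :=
  Real.sq_sqrt (nonneg_of_pd hB u)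

lemma nm_nonneg (B : Bil E) (u : E) : 0 ≤ nm B u := Real.sqrt_nonneg _

lemma cs' {B : Bil E} (hB : IsPD B) (u v : E) : B u v ≤ nm B u * nm B v := by
  have h := cs hB u v
  rw [← nm_sq hB u, ← nm_sq hB v, ← mul_pow] at h
  exact (le_abs_self _).trans (abs_le_of_sq_le_sq h (mul_nonneg (nm_nonneg B u) (nm_nonneg B v)))

lemma nm_add {B : Bil E} (hB : IsPD B) (u v : E) : nm B (u + v) ≤ nm B u + nm B v := by
  have h0 : 0 ≤ nm B u + nm B v := add_nonneg (nm_nonneg B u) (nm_nonneg B v)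
  refine le_of_sq_le_sq ?_ h0
  rw [nm_sq hB]
  have e : B (u + v) (u + v) = B u u + 2 * B u v + B v v := by
    simp only [map_add, add_apply]
    rw [hB.1 v u]
    ring
  rw [e, ← nm_sq hB u, ← nm_sq hB v]
  nlinarith [cs' hB u v]

lemma nm_smul (B : Bil E) (r : ℝ) (u : E) : nm B (r • u) = |r| * nm B u := by
  unfold nm
  have e : B (r • u) (r • u) = r ^ 2 * B u u := by
    simp only [map_smul, smul_apply, smul_eq_mul]
    ring
  rw [e, Real.sqrt_mul (sq_nonneg r), Real.sqrt_sq_eq_abs]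

lemma nm_continuous (B : Bil E) : Continuous (nm B) := by
  unfold nm
  exact Real.continuous_sqrt.comp (by fun_prop)

lemma nm_upper (B : Bil E) : ∃ C > 0, ∀ u, nm B u ≤ C * ‖u‖ := by
  refine ⟨Real.sqrt (‖B‖ + 1), Real.sqrt_pos.2 (by positivity), fun u => ?_⟩
  unfold nm
  rw [← Real.sqrt_sq (norm_nonneg u), ← Real.sqrt_mul (by positivity)]
  refine Real.sqrt_le_sqrt ?_
  have h1 := (le_abs_self _).trans (B.le_opNorm₂ u u)
  nlinarith [sq_nonneg ‖u‖]

lemma nm_lower [FiniteDimensional ℝ E] {B : Bil E} (hB : IsPD B) :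
    ∃ m > 0, ∀ u, m * ‖u‖ ≤ nm B u := by
  have : ProperSpace E := FiniteDimensional.proper ℝ E
  by_cases hne : (Metric.sphere (0 : E) 1).Nonempty
  · obtain ⟨x, hx, hmin⟩ := (isCompact_sphere (0 : E) 1).exists_isMinOn hne
      (nm_continuous B).continuousOn
    have hx0 : x ≠ 0 := by
      rintro rfl
      simp at hx
    refine ⟨nm B x, Real.sqrt_pos.2 (hB.2 x hx0), fun u => ?_⟩
    by_cases hu : u = 0
    · simp [hu, nm]
    have hn : 0 < ‖u‖ := norm_pos_iff.2 hu
    have h1 : nm B x ≤ nm B (‖u‖⁻¹ • u) := by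
      refine hmin ?_
      simp [norm_smul, hn.ne']
    rw [nm_smul, abs_of_pos (inv_pos.2 hn)] at h1
    rw [← div_eq_inv_mul, le_div_iff₀ hn] at h1
    exact h1
  · refine ⟨1, one_pos, fun u => ?_⟩
    have hu : u = 0 := by
      by_contra h
      apply hne
      refine ⟨‖u‖⁻¹ • u, ?_⟩
      have hn : ‖u‖ ≠ 0 := norm_ne_zero_iff.2 h
      simp [norm_smul, hn]
    simp [hu, nm]

theorem NM (E : Type*) [NormedAddCommGroup E] [NormedSpace ℝ E] [FiniteDimensional ℝ E] :
    S_NM E := by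
  intro B hB
  exact ⟨nm_add hB, nm_smul B, cs' hB, nm_lower hB, nm_upper B⟩

end Pool.Agent.Helper27.SRD
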